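import Mathlib
import Pool.Agent.H46Z.Fill.Defs
import Pool.Agent.H46Z.Fill.Main

/-!
# The directed Finsler filling area conjecture fails for the Moebius band

The surface is the quotient of the strip `[0, 2] × ℝ` by `(x, y) ↦ (2 - x, y + 1)`, with the constant
directed norm `F(v) = max (v_y + |v_x| / 2) (-4 v_y)`. Its boundary has directed lengths `a = 2` and
`b = 8`; crossing the band costs at least as much as running forward along half of the boundary, so
there are no shortcuts; the dual ball is a triangle of area `5 / 2`, and the area is `5 < 8 = a b / 2`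
(the proof uses the cruder bound `15 / 2`).
-/

set_option autoImplicit false

open scoped Manifold ContDiff ENNReal

namespace Pool.Agent.Results.MP_1fb3ec_gt.MoebiusCounterexample

open Pool.Agent.H46Z.Fill

/-- There is a compact connected smooth surface `M` with a directed Finsler semimetric `F` whose
boundary is a circle with a directed Finsler semimetric `G` (the restriction of `F`), such that `M`
fills the circle without shortcuts, the directed lengths of the circle are `a = 2` and `b = 8`, and
the unnormalised Holmes-Thompson area of `M` is smaller than `a b / 2`. -/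
theorem result : ∃ (M : Type) (_ : TopologicalSpace M) (_ : T2Space M) (_ : CompactSpace M)
    (_ : ConnectedSpace M) (_ : ChartedSpace (EuclideanHalfSpace 2) M)
    (_ : IsManifold (𝓡∂ 2) ∞ M) (F : TS M → ℝ) (G : TC → ℝ) (ι : Circle → M),
    IsFinslerSurface F ∧ IsFinslerCircle G ∧ IsBoundaryCircle ι ∧ IsRestriction F G ι ∧
    NoShortcuts F G ι ∧ lenPlus G = 2 ∧ lenMinus G = 8 ∧
    areaHT F < lenPlus G * lenMinus G / 2 := by
  have h1 : lenPlus GC = 2 := len_plus
  have h2 : lenMinus GC = 8 := len_minus
  refine ⟨Band, inferInstance, inferInstance, inferInstance, inferInstance, inferInstance,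
    inferInstance, FB, GC, io, isFinsler_FB, isFinsler_GC, isBoundaryCircle_io,
    fun z => isometric z.1 z.2,
    fills, h1, h2, area_le.trans_lt ?_⟩
  rw [h1, h2]
  have h : (2 : ℝ≥0∞) * 8 / 2 = ENNReal.ofReal 8 := by
    rw [mul_comm, ENNReal.mul_div_cancel_right (by norm_num) (by norm_num)]
    simp
  rw [h]
  exact (ENNReal.ofReal_lt_ofReal_iff (by norm_num)).2 (by norm_num)

end Pool.Agent.Results.MP_1fb3ec_gt.MoebiusCounterexample
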